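import Mathlib

set_option maxHeartbeats 800000

namespace Pool.Agent.H.MP_0edd48_al

open FreeGroup (of)

variable {ι G : Type} [DecidableEq ι] [Group G]

/-- two-sided transvection -/
def tv (i : ι) (u v : FreeGroup ι) : FreeGroup ι →* FreeGroup ι :=
  FreeGroup.lift fun m => if m = i then u * of i * v else of m

/-- specification of an automorphism and of its inverse -/
def Sp (φ : MulAut (FreeGroup ι)) (i : ι) (u v : FreeGroup ι) : Prop :=
  (∀ m, φ (of m) = if m = i then u * of i * v else of m) ∧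
    ∀ m, φ⁻¹ (of m) = if m = i then u⁻¹ * of i * v⁻¹ else of m

theorem ex (i : ι) (u v : FreeGroup ι) (hu : ∀ u' v', tv i u' v' u = u)
    (hv : ∀ u' v', tv i u' v' v = v) : ∃ φ, Sp φ i u v := by
  have h0 : ∀ u' v', tv i u' v' (of i) = u' * of i * v' := fun u' v' => by simp [tv]
  have h1 : ∀ u' v' m, m ≠ i → tv i u' v' (of m) = of m := fun u' v' m h => by simp [tv, h]
  refine ⟨MonoidHom.toMulEquiv (tv i u v) (tv i u⁻¹ v⁻¹) ?_ ?_, fun m => ?_, fun m => ?_⟩
  · ext m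
    by_cases h : m = i
    · subst h
      simp [h0, hu, hv, mul_assoc]
    · simp [h1 _ _ m h]
  · ext m
    by_cases h : m = i
    · subst h
      simp [h0, hu, hv, mul_assoc]
    · simp [h1 _ _ m h]
  · exact FreeGroup.lift_apply_of
  · exact FreeGroup.lift_apply_of

def St (χ : FreeGroup ι →* G) (φ : MulAut (FreeGroup ι)) (i j k : ι) (X Y Z : G) : Prop :=
  χ (φ (of i)) = X ∧ χ (φ (of j)) = Y ∧ χ (φ (of k)) = Z

variable {χ : FreeGroup ι →* G} {φ s : MulAut (FreeGroup ι)} {i j k : ι} {X Y Z : G}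
  {w : FreeGroup ι}

theorem st1 (hij : i ≠ j) (hik : i ≠ k) (_ : j ≠ k)
    (hs : ∀ m, s (of m) = if m = i then w else of m) (h : St χ φ i j k X Y Z) (X' : G)
    (hw : χ (φ w) = X') : St χ (φ * s) i j k X' Y Z := by
  refine ⟨?_, ?_, ?_⟩ <;> rw [MulAut.mul_apply, hs]
  · rwa [if_pos rfl]
  · rw [if_neg hij.symm, h.2.1]
  · rw [if_neg hik.symm, h.2.2]

theorem st3 (_ : i ≠ j) (hik : i ≠ k) (hjk : j ≠ k)
    (hs : ∀ m, s (of m) = if m = k then w else of m) (h : St χ φ i j k X Y Z) (Z' : G)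
    (hw : χ (φ w) = Z') : St χ (φ * s) i j k X Y Z' := by
  refine ⟨?_, ?_, ?_⟩ <;> rw [MulAut.mul_apply, hs]
  · rw [if_neg hik, h.1]
  · rw [if_neg hjk, h.2.1]
  · rwa [if_pos rfl]

variable {p q r a c : MulAut (FreeGroup ι)}

theorem rel (hij : i ≠ j) (hik : i ≠ k) (hjk : j ≠ k)
    (hp : Sp p i (of j) (of j)⁻¹) (hq : Sp q i (of k) (of k)⁻¹) (hr : Sp r k (of i) (of i)⁻¹)
    (hs : Sp s k (of j) (of j)⁻¹) (ha : Sp a i 1 (of j * of k * (of j)⁻¹ * (of k)⁻¹))
    (hc : Sp c k 1 (of i * of j * (of i)⁻¹ * (of j)⁻¹)) :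
    1 * s⁻¹ * a * s⁻¹ * a * q⁻¹ * c * p * q * a⁻¹ * s * r * p⁻¹ * c⁻¹ * r⁻¹ * q⁻¹ * p⁻¹ * c⁻¹ * q * a⁻¹ * s * r * c * p * r⁻¹ = 1 := by
  obtain ⟨x, hx⟩ : ∃ x, of i = x := ⟨_, rfl⟩
  obtain ⟨y, hy⟩ : ∃ y, of j = y := ⟨_, rfl⟩
  obtain ⟨z, hz⟩ : ∃ z, of k = z := ⟨_, rfl⟩
  have h0 : St (MonoidHom.id (FreeGroup ι)) 1 i j k x y z := ⟨hx, hy, hz⟩
  have h1 := st3 hij hik hjk hs.2 h0 (y⁻¹ * z * y) (by
    simp only [map_mul, map_inv, map_one, h0.1, h0.2.1, h0.2.2]
    try simp only [mul_inv_rev, inv_inv,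
      mul_assoc, mul_inv_cancel_left, inv_mul_cancel_left, one_mul, mul_one, inv_one,
      mul_inv_cancel, inv_mul_cancel])
  have h2 := st1 hij hik hjk ha.1 h1 (x * z * y⁻¹ * z⁻¹ * y) (by
    simp only [map_mul, map_inv, map_one, h1.1, h1.2.1, h1.2.2]
    try simp only [mul_inv_rev, inv_inv,
      mul_assoc, mul_inv_cancel_left, inv_mul_cancel_left, one_mul, mul_one, inv_one,
      mul_inv_cancel, inv_mul_cancel])
  have h3 := st3 hij hik hjk hs.2 h2 (y⁻¹ * y⁻¹ * z * y * y) (by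
    simp only [map_mul, map_inv, map_one, h2.1, h2.2.1, h2.2.2]
    try simp only [mul_inv_rev, inv_inv,
      mul_assoc, mul_inv_cancel_left, inv_mul_cancel_left, one_mul, mul_one, inv_one,
      mul_inv_cancel, inv_mul_cancel])
  have h4 := st1 hij hik hjk ha.1 h3 (x * z * y⁻¹ * y⁻¹ * z⁻¹ * y * y) (by
    simp only [map_mul, map_inv, map_one, h3.1, h3.2.1, h3.2.2]
    try simp only [mul_inv_rev, inv_inv,
      mul_assoc, mul_inv_cancel_left, inv_mul_cancel_left, one_mul, mul_one, inv_one,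
      mul_inv_cancel, inv_mul_cancel])
  have h5 := st1 hij hik hjk hq.2 h4 (y⁻¹ * y⁻¹ * z⁻¹ * y * y * x * z) (by
    simp only [map_mul, map_inv, map_one, h4.1, h4.2.1, h4.2.2]
    try simp only [mul_inv_rev, inv_inv,
      mul_assoc, mul_inv_cancel_left, inv_mul_cancel_left, one_mul, mul_one, inv_one,
      mul_inv_cancel, inv_mul_cancel])
  have h6 := st3 hij hik hjk hc.1 h5 (x * z * y * z⁻¹ * x⁻¹ * y⁻¹ * y⁻¹ * z * y) (by
    simp only [map_mul, map_inv, map_one, h5.1, h5.2.1, h5.2.2]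
    try simp only [mul_inv_rev, inv_inv,
      mul_assoc, mul_inv_cancel_left, inv_mul_cancel_left, one_mul, mul_one, inv_one,
      mul_inv_cancel, inv_mul_cancel])
  have h7 := st1 hij hik hjk hp.1 h6 (y⁻¹ * z⁻¹ * y * y * x * z * y⁻¹) (by
    simp only [map_mul, map_inv, map_one, h6.1, h6.2.1, h6.2.2]
    try simp only [mul_inv_rev, inv_inv,
      mul_assoc, mul_inv_cancel_left, inv_mul_cancel_left, one_mul, mul_one, inv_one,
      mul_inv_cancel, inv_mul_cancel])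
  have h8 := st1 hij hik hjk hq.1 h7 (x * z * y⁻¹ * z⁻¹ * y * y * x * z * y⁻¹ * z⁻¹ * x⁻¹) (by
    simp only [map_mul, map_inv, map_one, h7.1, h7.2.1, h7.2.2]
    try simp only [mul_inv_rev, inv_inv,
      mul_assoc, mul_inv_cancel_left, inv_mul_cancel_left, one_mul, mul_one, inv_one,
      mul_inv_cancel, inv_mul_cancel])
  have h9 := st1 hij hik hjk ha.2 h8 (x * y * y * x * z * y⁻¹ * z⁻¹ * x⁻¹ * y⁻¹) (by
    simp only [map_mul, map_inv, map_one, h8.1, h8.2.1, h8.2.2]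
    try simp only [mul_inv_rev, inv_inv,
      mul_assoc, mul_inv_cancel_left, inv_mul_cancel_left, one_mul, mul_one, inv_one,
      mul_inv_cancel, inv_mul_cancel])
  have h10 := st3 hij hik hjk hs.1 h9 (y * x * z * y * z⁻¹ * x⁻¹ * y⁻¹ * y⁻¹ * z) (by
    simp only [map_mul, map_inv, map_one, h9.1, h9.2.1, h9.2.2]
    try simp only [mul_inv_rev, inv_inv,
      mul_assoc, mul_inv_cancel_left, inv_mul_cancel_left, one_mul, mul_one, inv_one,
      mul_inv_cancel, inv_mul_cancel])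
  have h11 := st3 hij hik hjk hr.1 h10 (x * z * y * x * z * y * z⁻¹ * x⁻¹ * y⁻¹ * y⁻¹ * x⁻¹) (by
    simp only [map_mul, map_inv, map_one, h10.1, h10.2.1, h10.2.2]
    try simp only [mul_inv_rev, inv_inv,
      mul_assoc, mul_inv_cancel_left, inv_mul_cancel_left, one_mul, mul_one, inv_one,
      mul_inv_cancel, inv_mul_cancel])
  have h12 := st1 hij hik hjk hp.2 h11 (y⁻¹ * x * y * y * x * z * y⁻¹ * z⁻¹ * x⁻¹) (by
    simp only [map_mul, map_inv, map_one, h11.1, h11.2.1, h11.2.2]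
    try simp only [mul_inv_rev, inv_inv,
      mul_assoc, mul_inv_cancel_left, inv_mul_cancel_left, one_mul, mul_one, inv_one,
      mul_inv_cancel, inv_mul_cancel])
  have h13 := st3 hij hik hjk hc.2 h12 (x * z * x * z * y * z⁻¹ * x⁻¹ * y⁻¹ * y⁻¹ * x⁻¹ * y) (by
    simp only [map_mul, map_inv, map_one, h12.1, h12.2.1, h12.2.2]
    try simp only [mul_inv_rev, inv_inv,
      mul_assoc, mul_inv_cancel_left, inv_mul_cancel_left, one_mul, mul_one, inv_one,
      mul_inv_cancel, inv_mul_cancel])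
  have h14 := st3 hij hik hjk hr.2 h13 (x * z * y * z⁻¹ * x⁻¹ * y⁻¹ * y⁻¹ * x⁻¹ * y * x * z) (by
    simp only [map_mul, map_inv, map_one, h13.1, h13.2.1, h13.2.2]
    try simp only [mul_inv_rev, inv_inv,
      mul_assoc, mul_inv_cancel_left, inv_mul_cancel_left, one_mul, mul_one, inv_one,
      mul_inv_cancel, inv_mul_cancel])
  have h15 := st1 hij hik hjk hq.2 h14 (z⁻¹ * x⁻¹ * y⁻¹ * x * y * y * x * z * y⁻¹) (by
    simp only [map_mul, map_inv, map_one, h14.1, h14.2.1, h14.2.2]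
    try simp only [mul_inv_rev, inv_inv,
      mul_assoc, mul_inv_cancel_left, inv_mul_cancel_left, one_mul, mul_one, inv_one,
      mul_inv_cancel, inv_mul_cancel])
  have h16 := st1 hij hik hjk hp.2 h15 (y⁻¹ * z⁻¹ * x⁻¹ * y⁻¹ * x * y * y * x * z) (by
    simp only [map_mul, map_inv, map_one, h15.1, h15.2.1, h15.2.2]
    try simp only [mul_inv_rev, inv_inv,
      mul_assoc, mul_inv_cancel_left, inv_mul_cancel_left, one_mul, mul_one, inv_one,
      mul_inv_cancel, inv_mul_cancel])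
  have h17 := st3 hij hik hjk hc.2 h16 (y⁻¹ * y⁻¹ * x⁻¹ * y * x * z * y) (by
    simp only [map_mul, map_inv, map_one, h16.1, h16.2.1, h16.2.2]
    try simp only [mul_inv_rev, inv_inv,
      mul_assoc, mul_inv_cancel_left, inv_mul_cancel_left, one_mul, mul_one, inv_one,
      mul_inv_cancel, inv_mul_cancel])
  have h18 := st1 hij hik hjk hq.1 h17 (x * z * y⁻¹ * z⁻¹ * x⁻¹ * y⁻¹ * x * y * y) (by
    simp only [map_mul, map_inv, map_one, h17.1, h17.2.1, h17.2.2]
    try simp only [mul_inv_rev, inv_inv,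
      mul_assoc, mul_inv_cancel_left, inv_mul_cancel_left, one_mul, mul_one, inv_one,
      mul_inv_cancel, inv_mul_cancel])
  have h19 := st1 hij hik hjk ha.2 h18 (y⁻¹ * x * y) (by
    simp only [map_mul, map_inv, map_one, h18.1, h18.2.1, h18.2.2]
    try simp only [mul_inv_rev, inv_inv,
      mul_assoc, mul_inv_cancel_left, inv_mul_cancel_left, one_mul, mul_one, inv_one,
      mul_inv_cancel, inv_mul_cancel])
  have h20 := st3 hij hik hjk hs.1 h19 (y⁻¹ * x⁻¹ * y * x * z) (by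
    simp only [map_mul, map_inv, map_one, h19.1, h19.2.1, h19.2.2]
    try simp only [mul_inv_rev, inv_inv,
      mul_assoc, mul_inv_cancel_left, inv_mul_cancel_left, one_mul, mul_one, inv_one,
      mul_inv_cancel, inv_mul_cancel])
  have h21 := st3 hij hik hjk hr.1 h20 (x * z * y⁻¹ * x⁻¹ * y) (by
    simp only [map_mul, map_inv, map_one, h20.1, h20.2.1, h20.2.2]
    try simp only [mul_inv_rev, inv_inv,
      mul_assoc, mul_inv_cancel_left, inv_mul_cancel_left, one_mul, mul_one, inv_one,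
      mul_inv_cancel, inv_mul_cancel])
  have h22 := st3 hij hik hjk hc.1 h21 (x * z * x⁻¹) (by
    simp only [map_mul, map_inv, map_one, h21.1, h21.2.1, h21.2.2]
    try simp only [mul_inv_rev, inv_inv,
      mul_assoc, mul_inv_cancel_left, inv_mul_cancel_left, one_mul, mul_one, inv_one,
      mul_inv_cancel, inv_mul_cancel])
  have h23 := st1 hij hik hjk hp.1 h22 (x) (by
    simp only [map_mul, map_inv, map_one, h22.1, h22.2.1, h22.2.2]
    try simp only [mul_inv_rev, inv_inv,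
      mul_assoc, mul_inv_cancel_left, inv_mul_cancel_left, one_mul, mul_one, inv_one,
      mul_inv_cancel, inv_mul_cancel])
  have h24 := st3 hij hik hjk hr.2 h23 (z) (by
    simp only [map_mul, map_inv, map_one, h23.1, h23.2.1, h23.2.2]
    try simp only [mul_inv_rev, inv_inv,
      mul_assoc, mul_inv_cancel_left, inv_mul_cancel_left, one_mul, mul_one, inv_one,
      mul_inv_cancel, inv_mul_cancel])
  apply MulEquiv.toMonoidHom_injective
  ext m
  by_cases e1 : m = i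
  · rw [e1]; exact h24.1.trans hx.symm
  by_cases e2 : m = j
  · rw [e2]; exact h24.2.1.trans hy.symm
  by_cases e3 : m = k
  · rw [e3]; exact h24.2.2.trans hz.symm
  show (1 * s⁻¹ * a * s⁻¹ * a * q⁻¹ * c * p * q * a⁻¹ * s * r * p⁻¹ * c⁻¹ * r⁻¹ * q⁻¹ * p⁻¹ * c⁻¹ * q * a⁻¹ * s * r * c * p * r⁻¹) (of m) = of m
  simp only [MulAut.mul_apply, hp.1, hp.2, hq.1, hq.2, hr.1, hr.2, hs.1, hs.2, ha.1, ha.2, hc.1,
    hc.2, if_neg e1, if_neg e3, MulAut.one_apply]

theorem ne (hij : i ≠ j) (hik : i ≠ k) (hjk : j ≠ k)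
    (ha : Sp a i 1 (of j * of k * (of j)⁻¹ * (of k)⁻¹))
    (hc : Sp c k 1 (of i * of j * (of i)⁻¹ * (of j)⁻¹)) :
    1 * a * a * c * a⁻¹ * c⁻¹ * c⁻¹ * a⁻¹ * c ≠ 1 := by
  intro h
  let u : Equiv.Perm (Fin 3) := Equiv.swap 1 2
  let v : Equiv.Perm (Fin 3) := Equiv.swap 0 1
  have k0 : St (FreeGroup.lift fun m => if m = j then u else if m = k then v else 1) 1 i j k
      1 u v := ⟨by simp [hij, hik], by simp, by simp [hjk.symm]⟩
  have k1 := st1 hij hik hjk ha.1 k0 (v * u) (by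
    simp only [map_mul, map_inv, map_one, k0.1, k0.2.1, k0.2.2]; decide)
  have k2 := st1 hij hik hjk ha.1 k1 (u * v) (by
    simp only [map_mul, map_inv, map_one, k1.1, k1.2.1, k1.2.2]; decide)
  have k3 := st3 hij hik hjk hc.1 k2 (u) (by
    simp only [map_mul, map_inv, map_one, k2.1, k2.2.1, k2.2.2]; decide)
  have k4 := st1 hij hik hjk ha.2 k3 (u * v) (by
    simp only [map_mul, map_inv, map_one, k3.1, k3.2.1, k3.2.2]; decide)
  have k5 := st3 hij hik hjk hc.2 k4 (v) (by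
    simp only [map_mul, map_inv, map_one, k4.1, k4.2.1, k4.2.2]; decide)
  have k6 := st3 hij hik hjk hc.2 k5 (u * v * u) (by
    simp only [map_mul, map_inv, map_one, k5.1, k5.2.1, k5.2.2]; decide)
  have k7 := st1 hij hik hjk ha.2 k6 (1) (by
    simp only [map_mul, map_inv, map_one, k6.1, k6.2.1, k6.2.2]; decide)
  have k8 := st3 hij hik hjk hc.1 k7 (u * v * u) (by
    simp only [map_mul, map_inv, map_one, k7.1, k7.2.1, k7.2.2]; decide)
  have := k8.2.2
  rw [h, k0.2.2] at this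
  revert this
  decide

end Pool.Agent.H.MP_0edd48_al
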